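import Mathlib

/-! Exact coordinates of a realisation of the symplectic quadrangle `W(3)` in the real projective
plane, with the finite checks. -/

set_option autoImplicit false
set_option maxRecDepth 100000

namespace Pool.Agent.R998.GQ

/-- Plane points (homogeneous integer coordinates) of the points of `PG(3,3)`, indexed by the code
`w 0 + 3 w 1 + 9 w 2 + 27 w 3` of a representative `w`. -/
def tab : List (ℤ × ℤ × ℤ) := [
  (0, 0, 0), (1, -1, 1), (1, -1, 1),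
  (0, 1, 0), (2, -1, -2), (0, 2, 1),
  (0, 1, 0), (0, 2, 1), (2, -1, -2),
  (12, -647, -478), (664, -29, 1154), (29, 225, 225),
  (24, -241, -956), (149, -395, -382), (20, 239, -138),
  (12, -439, -478), (48, -118, -677), (215, 213, 18),
  (12, -647, -478), (29, 225, 225), (664, -29, 1154),
  (12, -439, -478), (215, 213, 18), (48, -118, -677),
  (24, -241, -956), (20, 239, -138), (149, -395, -382),
  (193, -124, -293), (362, -293, -124), (265, 11, -1679),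
  (193, 461, -293), (3, 4, 17), (772, -1978, -1913),
  (965, -971, -1465), (193, 370, -46), (2234, 643, 4166),
  (11, -137, 32), (1327, 2831, 634), (452, 178, 347),
  (22, -157, 64), (917, -853, -788), (121, 1457, 1834),
  (121, 365, 352), (33, 83, 343), (56, 235, -142),
  (71, -83, 86), (9, -1, -1), (821, -617, 566),
  (1207, 1397, 1462), (217, 129, -1002), (71, 1399, 827),
  (71, 34, 86), (1207, -423, 1956), (532, -361, -218),
  (193, -124, -293), (265, 11, -1679), (362, -293, -124),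
  (965, -971, -1465), (2234, 643, 4166), (193, 370, -46),
  (193, 461, -293), (772, -1978, -1913), (3, 4, 17),
  (71, -83, 86), (821, -617, 566), (9, -1, -1),
  (71, 34, 86), (532, -361, -218), (1207, -423, 1956),
  (1207, 1397, 1462), (71, 1399, 827), (217, 129, -1002),
  (11, -137, 32), (452, 178, 347), (1327, 2831, 634),
  (121, 365, 352), (56, 235, -142), (33, 83, 343),
  (22, -157, 64), (121, 1457, 1834), (917, -853, -788)]

/-- The 40 totally isotropic lines: codes of the nine vectors, and the plane line (its normal). -/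
def lns : List (List ℕ × (ℤ × ℤ × ℤ)) := [
  ([0, 1, 2, 9, 10, 11, 18, 19, 20], (225, 98, -127)),
  ([0, 1, 2, 27, 28, 29, 54, 55, 56], (139, 162, 23)),
  ([0, 1, 2, 45, 46, 47, 63, 64, 65], (1, 5, 4)),
  ([0, 1, 2, 36, 37, 38, 72, 73, 74], (5, -1, -6)),
  ([0, 3, 6, 9, 12, 15, 18, 21, 24], (239, 0, 6)),
  ([0, 3, 6, 27, 30, 33, 54, 57, 60], (293, 0, 193)),
  ([0, 3, 6, 45, 48, 51, 63, 66, 69], (86, 0, -71)),
  ([0, 3, 6, 36, 39, 42, 72, 75, 78], (32, 0, -11)),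
  ([0, 4, 8, 9, 13, 17, 18, 22, 26], (408, -466, 641)),
  ([0, 4, 8, 27, 31, 35, 54, 58, 62], (9, 40, -11)),
  ([0, 4, 8, 45, 49, 53, 63, 67, 71], (252, 314, 95)),
  ([0, 4, 8, 36, 40, 44, 72, 76, 80], (306, 86, 263)),
  ([0, 5, 7, 9, 14, 16, 18, 23, 25], (103, -4, 8)),
  ([0, 5, 7, 27, 32, 34, 54, 59, 61], (462, -193, 386)),
  ([0, 5, 7, 45, 50, 52, 63, 68, 70], (255, 71, -142)),
  ([0, 5, 7, 36, 41, 43, 72, 77, 79], (201, 11, -22)),
  ([0, 15, 21, 29, 44, 50, 55, 70, 76], (3359, -482, 527)),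
  ([0, 17, 22, 29, 43, 48, 55, 69, 77], (5505, -5627, 832)),
  ([0, 16, 23, 29, 42, 49, 55, 71, 75], (15813, -7601, 2446)),
  ([0, 12, 24, 28, 40, 52, 56, 68, 80], (9624, 13196, -3085)),
  ([0, 14, 25, 28, 39, 53, 56, 67, 78], (245, 166, 323)),
  ([0, 13, 26, 28, 41, 51, 56, 66, 79], (538, 1024, -849)),
  ([0, 11, 19, 30, 41, 49, 60, 71, 79], (6525, -1997, 1156)),
  ([0, 14, 25, 30, 44, 46, 60, 65, 76], (29, 94, 167)),
  ([0, 17, 22, 30, 38, 52, 60, 68, 73], (5439, -5113, -4462)),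
  ([0, 11, 19, 32, 40, 48, 61, 69, 80], (1125, 17629, -17774)),
  ([0, 13, 26, 32, 42, 46, 61, 65, 75], (1, -253, 262)),
  ([0, 15, 21, 32, 38, 53, 61, 67, 73], (739, 2420, -2204)),
  ([0, 11, 19, 31, 39, 50, 62, 70, 78], (225, 14, -43)),
  ([0, 12, 24, 31, 43, 46, 62, 65, 77], (1, 12, -3)),
  ([0, 16, 23, 31, 38, 51, 62, 66, 73], (18, -73, 14)),
  ([0, 10, 20, 33, 43, 53, 57, 67, 77], (8133, 14590, -4313)),
  ([0, 13, 26, 33, 37, 50, 57, 70, 74], (5327, -3855, 6064)),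
  ([0, 16, 23, 33, 40, 47, 57, 64, 80], (37269, 44845, -5174)),
  ([0, 10, 20, 35, 42, 52, 58, 68, 75], (33186, 7238, -18913)),
  ([0, 14, 25, 35, 37, 48, 58, 69, 74], (41708, -15062, -20041)),
  ([0, 15, 21, 35, 41, 47, 58, 64, 79], (8360, 6142, -5431)),
  ([0, 10, 20, 34, 44, 51, 59, 66, 76], (642, -382, -379)),
  ([0, 12, 24, 34, 37, 49, 59, 71, 74], (28062, -14108, 4261)),
  ([0, 17, 22, 34, 39, 47, 59, 64, 78], (1266, -1028, -2957))]

def dot (a b : ℤ × ℤ × ℤ) : ℤ := a.1 * b.1 + a.2.1 * b.2.1 + a.2.2 * b.2.2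

def cross (a b : ℤ × ℤ × ℤ) : ℤ × ℤ × ℤ :=
  (a.2.1 * b.2.2 - a.2.2 * b.2.1, a.2.2 * b.1 - a.1 * b.2.2, a.1 * b.2.1 - a.2.1 * b.1)

def comb (a b i j : ℕ) : ℕ :=
  (a * (i % 3) + b * (j % 3)) % 3 + 3 * ((a * (i / 3 % 3) + b * (j / 3 % 3)) % 3)
    + 9 * ((a * (i / 9 % 3) + b * (j / 9 % 3)) % 3) + 27 * ((a * (i / 27 % 3) + b * (j / 27 % 3)) % 3)

def sc (i j : ℕ) : ℕ :=
  ((i % 3) * (j / 3 % 3) + 2 * ((i / 3 % 3) * (j % 3)) + (i / 9 % 3) * (j / 27 % 3)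
    + 2 * ((i / 27 % 3) * (j / 9 % 3))) % 3

def ph (i : ℕ) : ℤ × ℤ × ℤ := tab.getD i (0, 0, 0)

theorem chk1 : ∀ l ∈ lns, ∀ w ∈ List.range 81, w = 0 ∨ (dot l.2 (ph w) = 0 ↔ w ∈ l.1) := by
  decide +kernel

theorem chk2 : ∀ i ∈ List.range 81, ∀ j ∈ List.range 81, i = 0 ∨ j = 0 ∨ j = i ∨ j = comb 2 0 i 0 ∨
    sc i j ≠ 0 ∨ ∃ l ∈ lns, i ∈ l.1 ∧ j ∈ l.1 := by
  decide +kernel

theorem chk3 : ∀ l ∈ lns, ∀ i ∈ l.1, ∀ j ∈ l.1, i = 0 ∨ j = 0 ∨ j = i ∨ j = comb 2 0 i 0 ∨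
    ((∀ a ∈ List.range 3, ∀ b ∈ List.range 3, comb a b i j ∈ l.1) ∧
      ∀ w ∈ l.1, ∃ a ∈ List.range 3, ∃ b ∈ List.range 3, comb a b i j = w) := by
  decide +kernel

theorem chk4 : ∀ i ∈ List.range 81, ∀ j ∈ List.range 81, i = 0 ∨ j = 0 ∨ j = i ∨ j = comb 2 0 i 0 ∨
    cross (ph i) (ph j) ≠ (0, 0, 0) := by
  decide +kernel

theorem chk5 : ∀ l ∈ lns, l.2 ≠ (0, 0, 0) := by decide +kernel

theorem chk6 : ∀ i ∈ List.range 81, i = 0 ∨ ph i ≠ (0, 0, 0) := by decide +kernel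

end Pool.Agent.R998.GQ
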