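import Mathlib

/-!
# A certified existence theorem for real zeros of integer quadratic systems

A list of terms `(c, p, q)` stands for the quadratic form `∑ c * x_p * x_q`.  Given `N` such forms,
an integer point `V`, an integer matrix `A` (an approximate inverse of the Jacobian `J` at `V`, up
to the scale `S`) and a radius `R`, three integer inequalities imply the existence of an exact
common real zero within distance `R` of `V`, with all coordinates of index `≥ N` unchanged.
-/

namespace Pool.Agent.R998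

/-- `(c, p, q)` stands for the quadratic monomial `c * x_p * x_q`. -/
abbrev Term := ℤ × ℕ × ℕ

/-- value of a quadratic form given by a list of terms at a real point -/
def evT (T : List Term) (x : ℕ → ℝ) : ℝ :=
  (T.map fun s => (s.1 : ℝ) * x s.2.1 * x s.2.2).sum

/-- value at an integer point -/
def evZ (T : List Term) (V : ℕ → ℤ) : ℤ :=
  (T.map fun s => s.1 * V s.2.1 * V s.2.2).sum

/-- partial derivative with respect to `x_m` at an integer point -/
def JZ (T : List Term) (V : ℕ → ℤ) (m : ℕ) : ℤ :=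
  (T.map fun s => s.1 * ((if s.2.1 = m then V s.2.2 else 0) +
    (if s.2.2 = m then V s.2.1 else 0))).sum

/-- sum of the absolute values of the coefficients -/
def bet (T : List Term) : ℤ := (T.map fun s => |s.1|).sum

theorem evT_cast (T : List Term) (V : ℕ → ℤ) : evT T (fun p => (V p : ℝ)) = (evZ T V : ℝ) := by
  induction T with
  | nil => simp [evT, evZ]
  | cons s T ih =>
    simp only [evT, evZ, List.map_cons, List.sum_cons] at ih ⊢
    rw [ih]; push_cast; ring

theorem bet_nonneg (T : List Term) : 0 ≤ bet T := by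
  induction T with
  | nil => simp [bet]
  | cons s T ih =>
    simp only [bet, List.map_cons, List.sum_cons] at ih ⊢
    positivity

theorem sum_ite_range (N p : ℕ) (a : ℝ) (d : ℕ → ℝ) (hd : ∀ p, N ≤ p → d p = 0) :
    ∑ m ∈ Finset.range N, (if p = m then a else 0) * d m = a * d p := by
  by_cases hp : p < N
  · rw [Finset.sum_eq_single p]
    · simp
    · intro b _ hb; rw [if_neg (Ne.symm hb)]; ring
    · intro h; exact absurd (Finset.mem_range.mpr hp) h
  · rw [hd p (not_lt.mp hp), mul_zero]
    apply Finset.sum_eq_zero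
    intro m hm
    rw [if_neg, zero_mul]
    rintro rfl
    exact hp (Finset.mem_range.mp hm)

theorem diff_bound (N : ℕ) (T : List Term) (V : ℕ → ℤ) (h h' : ℕ → ℝ) (R D : ℝ)
    (hh : ∀ p, |h p| ≤ R) (hh' : ∀ p, |h' p| ≤ R) (hD : ∀ p, |h p - h' p| ≤ D)
    (hN : ∀ p, N ≤ p → h p - h' p = 0) :
    |evT T (fun p => (V p : ℝ) + h p) - evT T (fun p => (V p : ℝ) + h' p)
      - ∑ m ∈ Finset.range N, (JZ T V m : ℝ) * (h m - h' m)| ≤ (bet T : ℝ) * (2 * R * D) := by
  have hR : 0 ≤ R := le_trans (abs_nonneg _) (hh 0)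
  have hD0 : 0 ≤ D := le_trans (abs_nonneg _) (hD 0)
  induction T with
  | nil => simp [evT, JZ, bet]
  | cons s T ih =>
    obtain ⟨c, p, q⟩ := s
    have e1 : evT ((c, p, q) :: T) (fun p => (V p : ℝ) + h p)
        = (c : ℝ) * ((V p : ℝ) + h p) * ((V q : ℝ) + h q) + evT T (fun p => (V p : ℝ) + h p) := by
      simp [evT]
    have e2 : evT ((c, p, q) :: T) (fun p => (V p : ℝ) + h' p)
        = (c : ℝ) * ((V p : ℝ) + h' p) * ((V q : ℝ) + h' q)
          + evT T (fun p => (V p : ℝ) + h' p) := by
      simp [evT]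
    have e3 : ∑ m ∈ Finset.range N, (JZ ((c, p, q) :: T) V m : ℝ) * (h m - h' m)
        = (c : ℝ) * ((V q : ℝ) * (h p - h' p) + (V p : ℝ) * (h q - h' q))
          + ∑ m ∈ Finset.range N, (JZ T V m : ℝ) * (h m - h' m) := by
      rw [← sum_ite_range N p (V q : ℝ) (fun m => h m - h' m) hN,
        ← sum_ite_range N q (V p : ℝ) (fun m => h m - h' m) hN, ← Finset.sum_add_distrib,
        Finset.mul_sum, ← Finset.sum_add_distrib]
      apply Finset.sum_congr rfl
      intro m _
      have : (JZ ((c, p, q) :: T) V m : ℝ) = (c : ℝ) * ((if p = m then (V q : ℝ) else 0) +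
          (if q = m then (V p : ℝ) else 0)) + (JZ T V m : ℝ) := by
        simp [JZ]
      rw [this]; ring
    have e4 : (bet ((c, p, q) :: T) : ℝ) = |(c : ℝ)| + (bet T : ℝ) := by
      simp [bet]
    rw [e1, e2, e3, e4]
    have key : |(c : ℝ) * ((h p - h' p) * h q + h' p * (h q - h' q))| ≤ |(c : ℝ)| * (2 * R * D) := by
      rw [abs_mul]
      apply mul_le_mul_of_nonneg_left _ (abs_nonneg _)
      calc |(h p - h' p) * h q + h' p * (h q - h' q)|
          ≤ |(h p - h' p) * h q| + |h' p * (h q - h' q)| := abs_add_le _ _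
        _ = |h p - h' p| * |h q| + |h' p| * |h q - h' q| := by rw [abs_mul, abs_mul]
        _ ≤ D * R + R * D := by
            apply add_le_add
            · exact mul_le_mul (hD p) (hh q) (abs_nonneg _) hD0
            · exact mul_le_mul (hh' p) (hD q) (abs_nonneg _) hR
        _ = 2 * R * D := by ring
    calc _ = |(c : ℝ) * ((h p - h' p) * h q + h' p * (h q - h' q))
          + (evT T (fun p => (V p : ℝ) + h p) - evT T (fun p => (V p : ℝ) + h' p)
      - ∑ m ∈ Finset.range N, (JZ T V m : ℝ) * (h m - h' m))| := by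
            congr 1; ring
      _ ≤ |(c : ℝ) * ((h p - h' p) * h q + h' p * (h q - h' q))|
          + |evT T (fun p => (V p : ℝ) + h p) - evT T (fun p => (V p : ℝ) + h' p)
      - ∑ m ∈ Finset.range N, (JZ T V m : ℝ) * (h m - h' m)| := abs_add_le _ _
      _ ≤ |(c : ℝ)| * (2 * R * D) + (bet T : ℝ) * (2 * R * D) := add_le_add key ih
      _ = _ := by ring

/-- extension by zero -/
def ext {N : ℕ} (h : Fin N → ℝ) (p : ℕ) : ℝ := if hp : p < N then h ⟨p, hp⟩ else 0

theorem ext_of_ge {N : ℕ} (h : Fin N → ℝ) {p : ℕ} (hp : N ≤ p) : ext h p = 0 := by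
  unfold ext; rw [dif_neg (not_lt.mpr hp)]

theorem ext_fin {N : ℕ} (h : Fin N → ℝ) (i : Fin N) : ext h i = h i := by
  unfold ext; rw [dif_pos i.2]

theorem ext_bound {N : ℕ} (h : Fin N → ℝ) {R : ℝ} (hR : 0 ≤ R) (hh : ∀ i, |h i| ≤ R) (p : ℕ) :
    |ext h p| ≤ R := by
  unfold ext
  split_ifs with hp
  · exact hh _
  · simpa using hR

/-- **Certified existence of a common zero.** -/
theorem exists_zero (N : ℕ) (hN : 0 < N) (T : ℕ → List Term) (V : ℕ → ℤ) (A J : ℕ → ℕ → ℤ)
    (S R : ℤ) (hS : 0 < S) (hR : 0 < R)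
    (hJ : ∀ k < N, ∀ m < N, JZ (T k) V m = J k m)
    (h1 : ∀ i < N, 4 * ∑ m ∈ Finset.range N,
      |(if i = m then S else 0) - ∑ k ∈ Finset.range N, A i k * J k m| ≤ S)
    (h2 : ∀ i < N, 8 * R * ∑ k ∈ Finset.range N, |A i k| * bet (T k) ≤ S)
    (h3 : ∀ i < N, 2 * |∑ k ∈ Finset.range N, A i k * evZ (T k) V| ≤ S * R) :
    ∃ x : ℕ → ℝ, (∀ p, N ≤ p → x p = V p) ∧ (∀ p, |x p - V p| ≤ R) ∧
      ∀ k < N, evT (T k) x = 0 := by
  have hS' : (0 : ℝ) < S := by exact_mod_cast hS
  have hR' : (0 : ℝ) < R := by exact_mod_cast hR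
  let P : (Fin N → ℝ) → ℕ → ℝ := fun h p => (V p : ℝ) + ext h p
  let G : (Fin N → ℝ) → (Fin N → ℝ) := fun h i =>
    h i - (∑ k ∈ Finset.range N, (A i k : ℝ) * evT (T k) (P h)) / S
  -- Lipschitz estimate
  have lip : ∀ h h' : Fin N → ℝ, (∀ i, |h i| ≤ R) → (∀ i, |h' i| ≤ R) → ∀ D : ℝ,
      0 ≤ D → (∀ i, |h i - h' i| ≤ D) → ∀ i, |G h i - G h' i| ≤ D / 2 := by
    intro h h' hh hh' D hD0 hD i
    have b1 : ∀ p, |ext h p| ≤ R := ext_bound h hR'.le hh
    have b2 : ∀ p, |ext h' p| ≤ R := ext_bound h' hR'.le hh'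
    have b3 : ∀ p, |ext h p - ext h' p| ≤ D := by
      intro p
      unfold ext
      split_ifs with hp
      · exact hD _
      · simpa using hD0
    have b4 : ∀ p, N ≤ p → ext h p - ext h' p = 0 := by
      intro p hp; rw [ext_of_ge h hp, ext_of_ge h' hp, sub_zero]
    set E : ℕ → ℝ := fun k => evT (T k) (P h) - evT (T k) (P h')
      - ∑ m ∈ Finset.range N, (JZ (T k) V m : ℝ) * (ext h m - ext h' m) with hE
    have bE : ∀ k, |E k| ≤ (bet (T k) : ℝ) * (2 * R * D) := fun k =>
      diff_bound N (T k) V (ext h) (ext h') R D b1 b2 b3 b4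
    have id1 : (G h i - G h' i) * S = (ext h i - ext h' i) * S
        - ∑ k ∈ Finset.range N, (A i k : ℝ) * (evT (T k) (P h) - evT (T k) (P h')) := by
      simp only [G]
      rw [← ext_fin h i, ← ext_fin h' i]
      simp only [mul_sub, Finset.sum_sub_distrib]
      field_simp
      ring
    have id2 : ∑ k ∈ Finset.range N, (A i k : ℝ) * (evT (T k) (P h) - evT (T k) (P h'))
        = ∑ k ∈ Finset.range N, (A i k : ℝ) * E k
          + ∑ m ∈ Finset.range N, (∑ k ∈ Finset.range N, (A i k : ℝ) * (J k m : ℝ)) *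
              (ext h m - ext h' m) := by
      have : ∑ m ∈ Finset.range N, (∑ k ∈ Finset.range N, (A i k : ℝ) * (J k m : ℝ)) *
              (ext h m - ext h' m)
          = ∑ k ∈ Finset.range N, (A i k : ℝ) *
              ∑ m ∈ Finset.range N, (JZ (T k) V m : ℝ) * (ext h m - ext h' m) := by
        simp only [Finset.sum_mul, Finset.mul_sum]
        rw [Finset.sum_comm]
        apply Finset.sum_congr rfl; intro k hk
        apply Finset.sum_congr rfl; intro m hm
        rw [hJ k (Finset.mem_range.mp hk) m (Finset.mem_range.mp hm)]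
        ring
      rw [this, ← Finset.sum_add_distrib]
      apply Finset.sum_congr rfl; intro k _
      simp only [hE]; ring
    have id3 : (ext h i - ext h' i) * S
        = ∑ m ∈ Finset.range N, (if (i : ℕ) = m then (S : ℝ) else 0) * (ext h m - ext h' m) := by
      rw [sum_ite_range N i (S : ℝ) (fun m => ext h m - ext h' m) b4]; ring
    have id4 : (G h i - G h' i) * S
        = ∑ m ∈ Finset.range N, ((if (i : ℕ) = m then (S : ℝ) else 0)
            - ∑ k ∈ Finset.range N, (A i k : ℝ) * (J k m : ℝ)) * (ext h m - ext h' m)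
          - ∑ k ∈ Finset.range N, (A i k : ℝ) * E k := by
      rw [id1, id2, id3]
      simp only [sub_mul, Finset.sum_sub_distrib]
      ring
    have c1 : |∑ m ∈ Finset.range N, ((if (i : ℕ) = m then (S : ℝ) else 0)
            - ∑ k ∈ Finset.range N, (A i k : ℝ) * (J k m : ℝ)) * (ext h m - ext h' m)|
        ≤ S / 4 * D := by
      have h1' := h1 i i.2
      have h1r : (4 : ℝ) * ∑ m ∈ Finset.range N, |(if (i : ℕ) = m then (S : ℝ) else 0)
            - ∑ k ∈ Finset.range N, (A i k : ℝ) * (J k m : ℝ)| ≤ S := by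
        have : ((4 * ∑ m ∈ Finset.range N,
          |(if (i : ℕ) = m then S else 0) - ∑ k ∈ Finset.range N, A i k * J k m| : ℤ) : ℝ)
            ≤ (S : ℝ) := by exact_mod_cast h1'
        push_cast at this
        exact this
      calc _ ≤ ∑ m ∈ Finset.range N, |((if (i : ℕ) = m then (S : ℝ) else 0)
            - ∑ k ∈ Finset.range N, (A i k : ℝ) * (J k m : ℝ)) * (ext h m - ext h' m)| :=
            Finset.abs_sum_le_sum_abs _ _
        _ ≤ ∑ m ∈ Finset.range N, |(if (i : ℕ) = m then (S : ℝ) else 0)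
            - ∑ k ∈ Finset.range N, (A i k : ℝ) * (J k m : ℝ)| * D := by
            apply Finset.sum_le_sum; intro m _
            rw [abs_mul]
            exact mul_le_mul_of_nonneg_left (b3 m) (abs_nonneg _)
        _ = (∑ m ∈ Finset.range N, |(if (i : ℕ) = m then (S : ℝ) else 0)
            - ∑ k ∈ Finset.range N, (A i k : ℝ) * (J k m : ℝ)|) * D := by
            rw [Finset.sum_mul]
        _ ≤ S / 4 * D := by
            apply mul_le_mul_of_nonneg_right _ hD0
            linarith
    have c2 : |∑ k ∈ Finset.range N, (A i k : ℝ) * E k| ≤ S / 4 * D := by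
      have h2' := h2 i i.2
      have h2r : (8 : ℝ) * R * ∑ k ∈ Finset.range N, |(A i k : ℝ)| * (bet (T k) : ℝ) ≤ S := by
        have : ((8 * R * ∑ k ∈ Finset.range N, |A i k| * bet (T k) : ℤ) : ℝ) ≤ (S : ℝ) := by
          exact_mod_cast h2'
        push_cast at this
        exact this
      calc _ ≤ ∑ k ∈ Finset.range N, |(A i k : ℝ) * E k| := Finset.abs_sum_le_sum_abs _ _
        _ ≤ ∑ k ∈ Finset.range N, |(A i k : ℝ)| * ((bet (T k) : ℝ) * (2 * R * D)) := by
            apply Finset.sum_le_sum; intro k _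
            rw [abs_mul]
            exact mul_le_mul_of_nonneg_left (bE k) (abs_nonneg _)
        _ = (8 * R * ∑ k ∈ Finset.range N, |(A i k : ℝ)| * (bet (T k) : ℝ)) / 4 * D := by
            simp only [← mul_assoc, ← Finset.sum_mul]; ring
        _ ≤ S / 4 * D := by
            apply mul_le_mul_of_nonneg_right _ hD0
            linarith
    have c3 : |(G h i - G h' i) * S| ≤ S / 2 * D := by
      rw [id4]
      refine (abs_sub _ _).trans ?_
      linarith
    rw [abs_mul, abs_of_pos hS'] at c3
    have : |G h i - G h' i| * S ≤ (D / 2) * S := by linarith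
    exact le_of_mul_le_mul_right this hS'
  -- value at zero
  have hG0 : ∀ i, |G 0 i| ≤ R / 2 := by
    intro i
    have hP0 : P 0 = fun p => (V p : ℝ) := by
      funext p; simp [P, ext]
    have h3' := h3 i i.2
    have h3r : (2 : ℝ) * |∑ k ∈ Finset.range N, (A i k : ℝ) * (evZ (T k) V : ℝ)| ≤ S * R := by
      have : ((2 * |∑ k ∈ Finset.range N, A i k * evZ (T k) V| : ℤ) : ℝ) ≤ ((S * R : ℤ) : ℝ) := by
        exact_mod_cast h3'
      push_cast at this
      exact this
    have : G 0 i = - ((∑ k ∈ Finset.range N, (A i k : ℝ) * (evZ (T k) V : ℝ)) / S) := by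
      simp only [G, hP0, evT_cast, Pi.zero_apply, zero_sub]
    rw [this, abs_neg, abs_div, abs_of_pos hS', div_le_iff₀ hS']
    linarith
  -- the ball
  let B : Set (Fin N → ℝ) := Metric.closedBall 0 R
  have memB : ∀ h : Fin N → ℝ, h ∈ B ↔ ∀ i, |h i| ≤ R := by
    intro h
    simp only [B, mem_closedBall_zero_iff]
    rw [pi_norm_le_iff_of_nonneg hR'.le]
    simp [Real.norm_eq_abs]
  have mapsB : Set.MapsTo G B B := by
    intro h hh
    rw [memB] at hh ⊢
    intro i
    have l := lip h 0 hh (by intro i; simpa using hR'.le) R hR'.le (by intro i; simpa using hh i) i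
    have g0 := hG0 i
    calc |G h i| = |(G h i - G 0 i) + G 0 i| := by ring_nf
      _ ≤ |G h i - G 0 i| + |G 0 i| := abs_add_le _ _
      _ ≤ R := by linarith
  have contr : ContractingWith (1/2) (mapsB.restrict G B B) := by
    constructor
    · rw [← NNReal.coe_lt_coe]; norm_num
    · apply LipschitzWith.of_dist_le_mul
      intro a b
      have ha := (memB a.1).mp a.2
      have hb := (memB b.1).mp b.2
      rw [Subtype.dist_eq, Subtype.dist_eq]
      have hd0 : 0 ≤ dist a.1 b.1 := dist_nonneg
      have := lip a.1 b.1 ha hb (dist a.1 b.1) hd0 (by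
        intro i
        have := dist_le_pi_dist a.1 b.1 i
        rwa [Real.dist_eq] at this)
      rw [dist_pi_le_iff (by positivity)]
      intro i
      rw [Real.dist_eq]
      have t := this i
      have e : ((1/2 : NNReal) : ℝ) = 1/2 := by norm_num
      rw [e]
      simpa [Set.MapsTo.restrict, Subtype.map] using (t.trans (by linarith : dist a.1 b.1 / 2 ≤ 1/2 * dist a.1 b.1))
  obtain ⟨h, hB, hfix, -, -⟩ := ContractingWith.exists_fixedPoint' (s := B)
    (Metric.isClosed_closedBall.isComplete) mapsB contr (x := 0)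
    ((memB 0).mpr (by intro i; simpa using hR'.le)) (edist_ne_top _ _)
  have hh := (memB h).mp hB
  -- `A F = 0`
  have hAF : ∀ i : Fin N, ∑ k ∈ Finset.range N, (A i k : ℝ) * evT (T k) (P h) = 0 := by
    intro i
    have := congrFun hfix i
    simp only [G] at this
    have h0 : (∑ k ∈ Finset.range N, (A i k : ℝ) * evT (T k) (P h)) / (S : ℝ) = 0 := by linarith
    rcases div_eq_zero_iff.mp h0 with h0 | h0
    · exact h0
    · exact absurd h0 hS'.ne'
  -- invertibility of `A`
  let AM : Matrix (Fin N) (Fin N) ℝ := fun i k => (A i k : ℝ)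
  let JM : Matrix (Fin N) (Fin N) ℝ := fun k m => (J k m : ℝ)
  have hdet : (AM * JM).det ≠ 0 := by
    intro hd
    obtain ⟨v, hv, hv0⟩ := Matrix.exists_mulVec_eq_zero_iff.mpr hd
    have : Nonempty (Fin N) := ⟨⟨0, hN⟩⟩
    obtain ⟨i, hi⟩ := Finite.exists_max (fun i => |v i|)
    have hvi : 0 < |v i| := by
      rcases Function.ne_iff.mp hv with ⟨j, hj⟩
      exact lt_of_lt_of_le (abs_pos.mpr hj) (hi j)
    have e0 := congrFun hv0 i
    have h1' := h1 i i.2
    have h1r : (4 : ℝ) * ∑ m : Fin N, |(if (i : ℕ) = m then (S : ℝ) else 0)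
            - (AM * JM) i m| ≤ S := by
      have : ((4 * ∑ m ∈ Finset.range N,
        |(if (i : ℕ) = m then S else 0) - ∑ k ∈ Finset.range N, A i k * J k m| : ℤ) : ℝ)
          ≤ (S : ℝ) := by exact_mod_cast h1'
      push_cast at this
      rw [Finset.sum_range] at this
      have e : ∀ m : Fin N, (AM * JM) i m
          = ∑ k ∈ Finset.range N, (A i k : ℝ) * (J k m : ℝ) := by
        intro m
        rw [Matrix.mul_apply, Finset.sum_range]
      simp only [e]
      exact this
    have e1 : (S : ℝ) * v i = ∑ m : Fin N, ((if (i : ℕ) = m then (S : ℝ) else 0)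
            - (AM * JM) i m) * v m := by
      have : ∑ m : Fin N, (if (i : ℕ) = m then (S : ℝ) else 0) * v m = S * v i := by
        rw [Finset.sum_eq_single i]
        · simp
        · intro b _ hb
          rw [if_neg, zero_mul]
          intro h; exact hb (Fin.ext h.symm)
        · intro h; exact absurd (Finset.mem_univ _) h
      simp only [sub_mul, Finset.sum_sub_distrib, this]
      have e0' : ∑ m : Fin N, (AM * JM) i m * v m = 0 := e0
      rw [e0', sub_zero]
    have e2 : (S : ℝ) * |v i| ≤ S / 4 * |v i| := by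
      calc (S : ℝ) * |v i| = |(S : ℝ) * v i| := by rw [abs_mul, abs_of_pos hS']
        _ ≤ ∑ m : Fin N, |((if (i : ℕ) = m then (S : ℝ) else 0) - (AM * JM) i m) * v m| := by
            rw [e1]; exact Finset.abs_sum_le_sum_abs _ _
        _ ≤ ∑ m : Fin N, |(if (i : ℕ) = m then (S : ℝ) else 0) - (AM * JM) i m| * |v i| := by
            apply Finset.sum_le_sum; intro m _
            rw [abs_mul]
            exact mul_le_mul_of_nonneg_left (hi m) (abs_nonneg _)
        _ = (∑ m : Fin N, |(if (i : ℕ) = m then (S : ℝ) else 0) - (AM * JM) i m|) * |v i| := by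
            rw [Finset.sum_mul]
        _ ≤ S / 4 * |v i| := by
            apply mul_le_mul_of_nonneg_right _ (abs_nonneg _)
            linarith
    have : 0 < (S : ℝ) * |v i| := mul_pos hS' hvi
    linarith
  have hAdet : AM.det ≠ 0 := by
    intro h0
    apply hdet
    rw [Matrix.det_mul, h0, zero_mul]
  have hF : (fun k : Fin N => evT (T k) (P h)) = 0 := by
    by_contra hne
    apply hAdet
    apply Matrix.exists_mulVec_eq_zero_iff.mp
    refine ⟨_, hne, ?_⟩
    funext i
    have := hAF i
    rw [Finset.sum_range] at this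
    exact this
  refine ⟨P h, ?_, ?_, ?_⟩
  · intro p hp
    simp only [P, ext_of_ge h hp, add_zero]
  · intro p
    simp only [P, add_sub_cancel_left]
    exact ext_bound h hR'.le hh p
  · intro k hk
    exact congrFun hF ⟨k, hk⟩

end Pool.Agent.R998
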