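import Pool.Agent.R998.PIData

/-!
# Kernel-checked certificate for the 36 quadratic equations
-/

namespace Pool.Agent.R998.PI

/-- unpack the `k`-th biased field of width `w` -/
def dec (w N k : ℕ) : ℤ := ((N / 2 ^ (w * k) % 2 ^ w : ℕ) : ℤ) - ((2 ^ (w - 1) : ℕ) : ℤ)

def eF (i : ℕ) : ℕ := eL.getD i 0
def rF (i : ℕ) : ℕ := rL.getD i 0
def iF (i : ℕ) : ℕ := iL.getD i 0
def cF (k : ℕ) : ℕ := cL.getD k 0
def vF (p : ℕ) : ℤ := dec 32 vN p
def aF (i k : ℕ) : ℤ := dec 24 (aL.getD i 0) k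
def jF (k m : ℕ) : ℤ := dec 88 (jL.getD k 0) m

/-- common coefficient -/
def coef (k i l : ℕ) : ℤ := ((cF k * 2 ^ (56 - eF i - eF l) : ℕ) : ℤ)

/-- terms of the diagonal type -/
def tD (im : Bool) (s : ℤ) (a b k : ℕ) : List Term :=
  if (a + k) % 3 = 2 ∧ (b + k) % 3 = 2 then
    bif im then
      [(s * coef k ((a + k) / 3) ((b + k) / 3), rF ((a + k) / 3), iF ((b + k) / 3)),
       (-(s * coef k ((a + k) / 3) ((b + k) / 3)), iF ((a + k) / 3), rF ((b + k) / 3))]
    else
      [(s * coef k ((a + k) / 3) ((b + k) / 3), rF ((a + k) / 3), rF ((b + k) / 3)),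
       (s * coef k ((a + k) / 3) ((b + k) / 3), iF ((a + k) / 3), iF ((b + k) / 3))]
  else []

/-- sign `(-1)^m` -/
def sg (m : ℕ) : ℤ := if m % 2 = 0 then 1 else -1

/-- terms of the off-diagonal type -/
def tO (im : Bool) (a b k : ℕ) : List Term :=
  if (a + k) % 3 = 2 ∧ (59 - (b + k)) % 3 = 2 then
    bif im then
      [(-(sg (b + k) * coef k ((a + k) / 3) ((59 - (b + k)) / 3)),
          rF ((a + k) / 3), iF ((59 - (b + k)) / 3)),
       (-(sg (b + k) * coef k ((a + k) / 3) ((59 - (b + k)) / 3)),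
          iF ((a + k) / 3), rF ((59 - (b + k)) / 3))]
    else
      [(sg (b + k) * coef k ((a + k) / 3) ((59 - (b + k)) / 3),
          rF ((a + k) / 3), rF ((59 - (b + k)) / 3)),
       (-(sg (b + k) * coef k ((a + k) / 3) ((59 - (b + k)) / 3)),
          iF ((a + k) / 3), iF ((59 - (b + k)) / 3))]
  else []

def TD (im : Bool) (s : ℤ) (a b : ℕ) : List Term := (List.range 52).flatMap (tD im s a b)
def TO (im : Bool) (a b : ℕ) : List Term := (List.range 52).flatMap (tO im a b)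

/-- the equation with a given specification -/
def eqn (s : Bool × Bool × ℕ × ℕ) : List Term :=
  bif s.1 then TO s.2.1 s.2.2.1 s.2.2.2
  else TD s.2.1 1 s.2.2.1 s.2.2.2 ++
    TD s.2.1 (-(sg (s.2.2.1 + s.2.2.2))) (8 - s.2.2.2) (8 - s.2.2.1)

def T (k : ℕ) : List Term := eqn (spec.getD k (true, true, 0, 0))

def allTo : ℕ → (ℕ → Bool) → Bool
  | 0, _ => true
  | n + 1, p => p n && allTo n p

def sumN : ℕ → (ℕ → ℕ) → ℕ
  | 0, _ => 0
  | n + 1, f => sumN n f + f n

def sumZ : ℕ → (ℕ → ℤ) → ℤ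
  | 0, _ => 0
  | n + 1, f => sumZ n f + f n

def betN (T : List Term) : ℕ := (T.map fun s => s.1.natAbs).sum

def SN : ℕ := 2 ^ 94

theorem chkJ : allTo 36 (fun k => allTo 36 (fun m => decide (JZ (T k) vF m = jF k m))) = true := by
  decide +kernel

theorem chk1 : allTo 36 (fun i => decide (4 * sumN 36 (fun m =>
    ((if i = m then (SN : ℤ) else 0) - sumZ 36 (fun k => aF i k * jF k m)).natAbs) ≤ SN)) = true := by
  decide +kernel

theorem chk2 : allTo 36 (fun i => decide (8 * 64 * sumN 36 (fun k =>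
    (aF i k).natAbs * betN (T k)) ≤ SN)) = true := by
  decide +kernel

theorem chk3 : allTo 36 (fun i => decide (2 * (sumZ 36 (fun k =>
    aF i k * evZ (T k) vF)).natAbs ≤ SN * 64)) = true := by
  decide +kernel

end Pool.Agent.R998.PI
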