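import Pool.Agent.R998.PIZero

/-!
# The identities satisfied by the exact zero, for all index pairs `a, b ≤ 8`
-/

namespace Pool.Agent.R998.PI

open Finset

theorem spec_zero {x : ℕ → ℝ} (hx : ∀ k < 36, evT (T k) x = 0) (s : Bool × Bool × ℕ × ℕ)
    (hs : spec.contains s = true) : evT (eqn s) x = 0 := by
  have hs' : s ∈ spec := by simpa using hs
  obtain ⟨k, hk, rfl⟩ := List.getElem_of_mem hs'
  have hlen : spec.length = 36 := by decide +kernel
  have := hx k (by omega)
  unfold T at this
  rwa [List.getD_eq_getElem _ _ hk] at this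

theorem ORe_refl (x : ℕ → ℝ) (a b : ℕ) (ha : a ≤ 8) (hb : b ≤ 8) :
    ORe x a b = -((-1) ^ (a + b) * ORe x (8 - b) (8 - a)) := by
  unfold ORe
  rw [← Finset.sum_range_reflect, Finset.mul_sum, ← Finset.sum_neg_distrib]
  apply Finset.sum_congr rfl
  intro k hk
  have hk' : k ≤ 51 := by have := Finset.mem_range.mp hk; omega
  have e1 : 52 - 1 - k = 51 - k := by omega
  have e2 : a + (51 - k) = 59 - (8 - a + k) := by omega
  have e3 : 59 - (b + (51 - k)) = 8 - b + k := by omega
  have e4 : Nat.choose 51 (51 - k) = Nat.choose 51 k := Nat.choose_symm hk'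
  have e5 : ((-1 : ℝ)) ^ (b + (51 - k)) = - ((-1) ^ (a + b) * (-1) ^ (8 - a + k)) := by
    rw [← pow_add]
    have : (-1 : ℝ) ^ (a + b + (8 - a + k)) = (-1) ^ (b + k) := by
      rw [show a + b + (8 - a + k) = (b + k) + 2 * 4 by omega, pow_add, pow_mul]; norm_num
    rw [this]
    have h2 : (-1 : ℝ) ^ (b + (51 - k)) * (-1) ^ k = - (-1) ^ b := by
      rw [← pow_add, show b + (51 - k) + k = b + (2 * 25 + 1) by omega, pow_add, pow_succ,
        pow_mul]; norm_num
    have h3 : ((-1 : ℝ) ^ k) * (-1) ^ k = 1 := by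
      rw [← pow_add, ← two_mul, pow_mul]; norm_num
    calc (-1 : ℝ) ^ (b + (51 - k)) = (-1 : ℝ) ^ (b + (51 - k)) * ((-1) ^ k * (-1) ^ k) := by
          rw [h3, mul_one]
      _ = ((-1 : ℝ) ^ (b + (51 - k)) * (-1) ^ k) * (-1) ^ k := by ring
      _ = - (-1) ^ (b + k) := by rw [h2, pow_add]; ring
  rw [e1, e2, e3, e4, e5]
  ring

theorem OIm_refl (x : ℕ → ℝ) (a b : ℕ) (ha : a ≤ 8) (hb : b ≤ 8) :
    OIm x a b = -((-1) ^ (a + b) * OIm x (8 - b) (8 - a)) := by
  unfold OIm
  rw [← Finset.sum_range_reflect, Finset.mul_sum, ← Finset.sum_neg_distrib]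
  apply Finset.sum_congr rfl
  intro k hk
  have hk' : k ≤ 51 := by have := Finset.mem_range.mp hk; omega
  have e1 : 52 - 1 - k = 51 - k := by omega
  have e2 : a + (51 - k) = 59 - (8 - a + k) := by omega
  have e3 : 59 - (b + (51 - k)) = 8 - b + k := by omega
  have e4 : Nat.choose 51 (51 - k) = Nat.choose 51 k := Nat.choose_symm hk'
  have e5 : ((-1 : ℝ)) ^ (b + (51 - k)) = - ((-1) ^ (a + b) * (-1) ^ (8 - a + k)) := by
    rw [← pow_add]
    have : (-1 : ℝ) ^ (a + b + (8 - a + k)) = (-1) ^ (b + k) := by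
      rw [show a + b + (8 - a + k) = (b + k) + 2 * 4 by omega, pow_add, pow_mul]; norm_num
    rw [this]
    have h2 : (-1 : ℝ) ^ (b + (51 - k)) * (-1) ^ k = - (-1) ^ b := by
      rw [← pow_add, show b + (51 - k) + k = b + (2 * 25 + 1) by omega, pow_add, pow_succ,
        pow_mul]; norm_num
    have h3 : ((-1 : ℝ) ^ k) * (-1) ^ k = 1 := by
      rw [← pow_add, ← two_mul, pow_mul]; norm_num
    calc (-1 : ℝ) ^ (b + (51 - k)) = (-1 : ℝ) ^ (b + (51 - k)) * ((-1) ^ k * (-1) ^ k) := by
          rw [h3, mul_one]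
      _ = ((-1 : ℝ) ^ (b + (51 - k)) * (-1) ^ k) * (-1) ^ k := by ring
      _ = - (-1) ^ (b + k) := by rw [h2, pow_add]; ring
  rw [e1, e2, e3, e4, e5]
  ring

theorem O_mod (x : ℕ → ℝ) (a b : ℕ) (ha : a ≤ 8) (hb : b ≤ 8) (h : (b + 9 - a) % 3 ≠ 1) :
    ORe x a b = 0 ∧ OIm x a b = 0 := by
  have key : ∀ k ∈ range 52, ¬ ((a + k) % 3 = 2 ∧ (59 - (b + k)) % 3 = 2) := by
    intro k hk
    have := Finset.mem_range.mp hk
    omega
  constructor
  · unfold ORe
    apply Finset.sum_eq_zero
    intro k hk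
    rcases not_and_or.mp (key k hk) with h | h
    · simp [ga, gb, h]
    · simp [ga, gb, h]
  · unfold OIm
    apply Finset.sum_eq_zero
    intro k hk
    rcases not_and_or.mp (key k hk) with h | h
    · simp [ga, gb, h]
    · simp [ga, gb, h]

theorem D_mod (x : ℕ → ℝ) (a b : ℕ) (h : a % 3 ≠ b % 3) :
    DRe x a b = 0 ∧ DIm x a b = 0 := by
  have key : ∀ k ∈ range 52, ¬ ((a + k) % 3 = 2 ∧ (b + k) % 3 = 2) := by
    intro k _
    omega
  constructor
  · unfold DRe
    apply Finset.sum_eq_zero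
    intro k hk
    rcases not_and_or.mp (key k hk) with h | h
    · simp [ga, gb, h]
    · simp [ga, gb, h]
  · unfold DIm
    apply Finset.sum_eq_zero
    intro k hk
    rcases not_and_or.mp (key k hk) with h | h
    · simp [ga, gb, h]
    · simp [ga, gb, h]

theorem DRe_comm (x : ℕ → ℝ) (a b : ℕ) : DRe x a b = DRe x b a := by
  unfold DRe; apply Finset.sum_congr rfl; intro k _; ring

theorem DIm_comm (x : ℕ → ℝ) (a b : ℕ) : DIm x a b = - DIm x b a := by
  unfold DIm; rw [← Finset.sum_neg_distrib]; apply Finset.sum_congr rfl; intro k _; ring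

theorem sq_sign (m : ℕ) : ((-1 : ℝ) ^ m) * (-1) ^ m = 1 := by
  rw [← pow_add, ← two_mul, pow_mul]; norm_num

/-- coverage of the off-diagonal equations -/
def covO (a b : ℕ) : Bool :=
  decide ((b + 9 - a) % 3 ≠ 1) ||
  (spec.contains (true, false, a, b) && spec.contains (true, true, a, b)) ||
  (spec.contains (true, false, 8 - b, 8 - a) && spec.contains (true, true, 8 - b, 8 - a)) ||
  (decide (8 - b = a) && decide ((a + b) % 2 = 0))

theorem covO_all : allTo 9 (fun a => allTo 9 (fun b => covO a b)) = true := by decide +kernel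

/-- coverage of the diagonal equations -/
def covD (im : Bool) (a b : ℕ) : Bool :=
  decide (a % 3 ≠ b % 3) || (im && decide (a = b)) ||
  spec.contains (false, im, a, b) || spec.contains (false, im, b, a) ||
  spec.contains (false, im, 8 - b, 8 - a) || spec.contains (false, im, 8 - a, 8 - b) ||
  (decide (8 - b = a) && decide (8 - a = b) && decide ((a + b) % 2 = 0))

theorem covD_all : allTo 9 (fun a => allTo 9 (fun b => covD false a b && covD true a b)) = true := by
  decide +kernel

theorem O_zero {x : ℕ → ℝ} (hx : ∀ k < 36, evT (T k) x = 0) (a b : ℕ) (ha : a ≤ 8) (hb : b ≤ 8) :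
    ORe x a b = 0 ∧ OIm x a b = 0 := by
  have h := allTo_spec (allTo_spec covO_all a (by omega)) b (by omega)
  have base : ∀ a b, spec.contains (true, false, a, b) = true →
      spec.contains (true, true, a, b) = true → ORe x a b = 0 ∧ OIm x a b = 0 := by
    intro a b h1 h2
    have e1 := spec_zero hx _ h1
    have e2 := spec_zero hx _ h2
    simp only [eqn, cond_true, ev_TO_re, ev_TO_im] at e1 e2
    constructor
    · rcases mul_eq_zero.mp e1 with h | h
      · norm_num at h
      · exact h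
    · rcases mul_eq_zero.mp e2 with h | h
      · norm_num at h
      · exact h
  simp only [covO, Bool.or_eq_true, Bool.and_eq_true, decide_eq_true_eq] at h
  rcases h with ((h | h) | h) | h
  · exact O_mod x a b ha hb h
  · exact base a b h.1 h.2
  · have := base _ _ h.1 h.2
    rw [ORe_refl x a b ha hb, OIm_refl x a b ha hb, this.1, this.2]
    simp
  · have e1 := ORe_refl x a b ha hb
    have e2 := OIm_refl x a b ha hb
    have h8 : 8 - a = b := by omega
    rw [h.1, h8, Even.neg_one_pow (Nat.even_iff.mpr h.2), one_mul] at e1 e2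
    constructor <;> linarith

theorem D_sym {x : ℕ → ℝ} (hx : ∀ k < 36, evT (T k) x = 0) (a b : ℕ) (ha : a ≤ 8) (hb : b ≤ 8) :
    DRe x a b = (-1) ^ (a + b) * DRe x (8 - b) (8 - a) ∧
    DIm x a b = (-1) ^ (a + b) * DIm x (8 - b) (8 - a) := by
  have h := allTo_spec (allTo_spec covD_all a (by omega)) b (by omega)
  rw [Bool.and_eq_true] at h
  have baseRe : ∀ a b, spec.contains (false, false, a, b) = true →
      DRe x a b = (-1) ^ (a + b) * DRe x (8 - b) (8 - a) := by
    intro a b h1
    have e1 := spec_zero hx _ h1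
    simp only [eqn, cond_false, evT_append, ev_TD_re, Int.cast_neg, sg_cast, Int.cast_one] at e1
    have : (2 : ℝ) ^ 56 * (DRe x a b - (-1) ^ (a + b) * DRe x (8 - b) (8 - a)) = 0 := by
      linarith
    rcases mul_eq_zero.mp this with h | h
    · norm_num at h
    · linarith
  have baseIm : ∀ a b, spec.contains (false, true, a, b) = true →
      DIm x a b = (-1) ^ (a + b) * DIm x (8 - b) (8 - a) := by
    intro a b h1
    have e1 := spec_zero hx _ h1
    simp only [eqn, cond_false, evT_append, ev_TD_im, Int.cast_neg, sg_cast, Int.cast_one] at e1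
    have : (2 : ℝ) ^ 56 * (DIm x a b - (-1) ^ (a + b) * DIm x (8 - b) (8 - a)) = 0 := by
      linarith
    rcases mul_eq_zero.mp this with h | h
    · norm_num at h
    · linarith
  have r1 : 8 - (8 - a) = a := by omega
  have r2 : 8 - (8 - b) = b := by omega
  have s1 : ((-1 : ℝ)) ^ (8 - b + (8 - a)) = (-1) ^ (a + b) := by
    have e : (8 - b + (8 - a)) + 2 * (a + b) = (a + b) + 2 * 8 := by omega
    have h1 : (-1 : ℝ) ^ ((8 - b + (8 - a)) + 2 * (a + b)) = (-1) ^ (8 - b + (8 - a)) := by
      rw [pow_add, pow_mul]; norm_num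
    have h2 : (-1 : ℝ) ^ ((a + b) + 2 * 8) = (-1) ^ (a + b) := by
      rw [pow_add, pow_mul]; norm_num
    rw [← h1, e, h2]
  have s2 : ((-1 : ℝ)) ^ (8 - a + (8 - b)) = (-1) ^ (a + b) := by
    rw [add_comm (8 - a) (8 - b), s1]
  have q := sq_sign (a + b)
  constructor
  · have h1 := h.1
    simp only [covD, Bool.or_eq_true, Bool.and_eq_true, decide_eq_true_eq, Bool.false_eq_true,
      false_and, or_false] at h1
    rcases h1 with ((((h1 | h1) | h1) | h1) | h1) | h1
    · rw [(D_mod x a b h1).1, (D_mod x (8 - b) (8 - a) (by omega)).1]; simp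
    · exact baseRe a b h1
    · rw [DRe_comm x a b, DRe_comm x (8 - b) (8 - a), baseRe b a h1, add_comm b a]
    · have := baseRe _ _ h1
      rw [r1, r2, s1] at this
      rw [this, ← mul_assoc, q, one_mul]
    · have := baseRe _ _ h1
      rw [r1, r2, s2] at this
      rw [DRe_comm x (8 - b) (8 - a), this, ← mul_assoc, q, one_mul, DRe_comm]
    · rw [h1.1.1, h1.1.2, Even.neg_one_pow (Nat.even_iff.mpr h1.2), one_mul]
  · have h1 := h.2
    simp only [covD, Bool.or_eq_true, Bool.and_eq_true, decide_eq_true_eq, true_and] at h1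
    rcases h1 with (((((h1 | h1) | h1) | h1) | h1) | h1) | h1
    · rw [(D_mod x a b h1).2, (D_mod x (8 - b) (8 - a) (by omega)).2]; simp
    · subst h1
      have e1 := DIm_comm x a a
      have e2 := DIm_comm x (8 - a) (8 - a)
      have e3 : DIm x a a = 0 := by linarith
      have e4 : DIm x (8 - a) (8 - a) = 0 := by linarith
      rw [e3, e4]; simp
    · exact baseIm a b h1
    · rw [DIm_comm x a b, DIm_comm x (8 - b) (8 - a), baseIm b a h1, add_comm b a]; ring
    · have := baseIm _ _ h1
      rw [r1, r2, s1] at this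
      rw [this, ← mul_assoc, q, one_mul]
    · have := baseIm _ _ h1
      rw [r1, r2, s2] at this
      rw [DIm_comm x (8 - b) (8 - a), this, DIm_comm x b a]
      linear_combination (-(DIm x a b)) * q
    · rw [h1.1.1, h1.1.2, Even.neg_one_pow (Nat.even_iff.mpr h1.2), one_mul]

end Pool.Agent.R998.PI
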