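import Pool.Agent.R998.PICheck

/-!
# Existence of the exact zero, and the identities it satisfies
-/

namespace Pool.Agent.R998.PI

open Finset

theorem allTo_spec {n : ℕ} {p : ℕ → Bool} (h : allTo n p = true) : ∀ k < n, p k = true := by
  induction n with
  | zero => intro k hk; omega
  | succ n ih =>
    simp only [allTo, Bool.and_eq_true] at h
    intro k hk
    rcases Nat.lt_succ_iff_lt_or_eq.mp hk with hk | rfl
    · exact ih h.2 k hk
    · exact h.1

theorem sumZ_eq (n : ℕ) (f : ℕ → ℤ) : sumZ n f = ∑ k ∈ range n, f k := by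
  induction n with
  | zero => simp [sumZ]
  | succ n ih => rw [Finset.sum_range_succ, sumZ, ih]

theorem sumN_eq (n : ℕ) (f : ℕ → ℕ) : sumN n f = ∑ k ∈ range n, f k := by
  induction n with
  | zero => simp [sumN]
  | succ n ih => rw [Finset.sum_range_succ, sumN, ih]

theorem betN_eq (T : List Term) : (betN T : ℤ) = bet T := by
  induction T with
  | nil => simp [betN, bet]
  | cons s T ih =>
    simp only [betN, bet, List.map_cons, List.sum_cons] at ih ⊢
    rw [Nat.cast_add, ih, Int.natCast_natAbs]

theorem exists_x : ∃ x : ℕ → ℝ, (∀ p, 36 ≤ p → x p = vF p) ∧ ∀ k < 36, evT (T k) x = 0 := by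
  obtain ⟨x, h1, -, h2⟩ := exists_zero 36 (by norm_num) T vF aF jF (SN : ℤ) 64
    (by norm_num [SN]) (by norm_num)
    (by
      intro k hk m hm
      have := allTo_spec (allTo_spec chkJ k hk) m hm
      exact of_decide_eq_true this)
    (by
      intro i hi
      have := of_decide_eq_true (allTo_spec chk1 i hi)
      have h : ((4 * sumN 36 (fun m =>
        ((if i = m then (SN : ℤ) else 0) - sumZ 36 (fun k => aF i k * jF k m)).natAbs) : ℕ) : ℤ)
          ≤ (SN : ℤ) := by exact_mod_cast this
      rw [sumN_eq] at h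
      push_cast at h
      simpa only [sumZ_eq] using h)
    (by
      intro i hi
      have := of_decide_eq_true (allTo_spec chk2 i hi)
      have h : ((8 * 64 * sumN 36 (fun k => (aF i k).natAbs * betN (T k)) : ℕ) : ℤ)
          ≤ (SN : ℤ) := by exact_mod_cast this
      rw [sumN_eq] at h
      push_cast at h
      simp only [betN_eq] at h
      linarith)
    (by
      intro i hi
      have := of_decide_eq_true (allTo_spec chk3 i hi)
      have h : ((2 * (sumZ 36 (fun k => aF i k * evZ (T k) vF)).natAbs : ℕ) : ℤ)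
          ≤ ((SN * 64 : ℕ) : ℤ) := by exact_mod_cast this
      push_cast at h
      simpa only [sumZ_eq] using h)
  exact ⟨x, h1, h2⟩

/-! ### Binomial coefficients -/

theorem cF_rec : allTo 51 (fun k => decide (cF (k + 1) * (k + 1) = cF k * (51 - k))) = true := by
  decide +kernel

theorem cF_eq (k : ℕ) (hk : k ≤ 51) : cF k = Nat.choose 51 k := by
  induction k with
  | zero => decide
  | succ k ih =>
    have h1 := of_decide_eq_true (allTo_spec cF_rec k (by omega))
    have h2 := Nat.choose_succ_right_eq 51 k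
    rw [ih (by omega), ← h2] at h1
    exact Nat.eq_of_mul_eq_mul_right (Nat.succ_pos k) h1

theorem eF_le (i : ℕ) : eF i ≤ 28 := by
  by_cases hi : i < 20
  · have : allTo 20 (fun i => decide (eF i ≤ 28)) = true := by decide +kernel
    exact of_decide_eq_true (allTo_spec this i hi)
  · have : eF i = 0 := by
      unfold eF eL
      rw [List.getD_eq_default]
      simp; omega
    omega

/-! ### Evaluation of the term lists -/

theorem evT_append (L M : List Term) (x : ℕ → ℝ) : evT (L ++ M) x = evT L x + evT M x := by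
  simp [evT]

theorem evT_flatMap (n : ℕ) (f : ℕ → List Term) (x : ℕ → ℝ) :
    evT ((List.range n).flatMap f) x = ∑ k ∈ range n, evT (f k) x := by
  induction n with
  | zero => simp [evT]
  | succ n ih =>
    rw [List.range_succ, List.flatMap_append, evT_append, ih, Finset.sum_range_succ]
    simp

/-- real parts of the coefficients -/
noncomputable def ga (x : ℕ → ℝ) (j : ℕ) : ℝ :=
  if j % 3 = 2 then x (rF (j / 3)) / 2 ^ eF (j / 3) else 0

/-- imaginary parts of the coefficients -/
noncomputable def gb (x : ℕ → ℝ) (j : ℕ) : ℝ :=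
  if j % 3 = 2 then x (iF (j / 3)) / 2 ^ eF (j / 3) else 0

noncomputable def DRe (x : ℕ → ℝ) (a b : ℕ) : ℝ :=
  ∑ k ∈ range 52, (Nat.choose 51 k : ℝ) * (ga x (a + k) * ga x (b + k) + gb x (a + k) * gb x (b + k))

noncomputable def DIm (x : ℕ → ℝ) (a b : ℕ) : ℝ :=
  ∑ k ∈ range 52, (Nat.choose 51 k : ℝ) * (ga x (a + k) * gb x (b + k) - gb x (a + k) * ga x (b + k))

noncomputable def ORe (x : ℕ → ℝ) (a b : ℕ) : ℝ :=
  ∑ k ∈ range 52, (Nat.choose 51 k : ℝ) * ((-1) ^ (b + k) *
    (ga x (a + k) * ga x (59 - (b + k)) - gb x (a + k) * gb x (59 - (b + k))))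

noncomputable def OIm (x : ℕ → ℝ) (a b : ℕ) : ℝ :=
  ∑ k ∈ range 52, (Nat.choose 51 k : ℝ) * (-((-1) ^ (b + k)) *
    (ga x (a + k) * gb x (59 - (b + k)) + gb x (a + k) * ga x (59 - (b + k))))

theorem coef_cast (k i l : ℕ) (hk : k ≤ 51) :
    (coef k i l : ℝ) = 2 ^ 56 * (Nat.choose 51 k : ℝ) / (2 ^ eF i * 2 ^ eF l) := by
  have h1 := eF_le i
  have h2 := eF_le l
  unfold coef
  rw [cF_eq k hk]
  push_cast
  have : (2 : ℝ) ^ 56 = 2 ^ (56 - eF i - eF l) * (2 ^ eF i * 2 ^ eF l) := by
    rw [← pow_add, ← pow_add]; congr 1; omega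
  rw [this]
  field_simp

theorem sg_cast (m : ℕ) : (sg m : ℝ) = (-1) ^ m := by
  unfold sg
  split_ifs with h
  · rw [Even.neg_one_pow (Nat.even_iff.mpr h)]; norm_num
  · rw [Odd.neg_one_pow (Nat.odd_iff.mpr (by omega))]; norm_num

theorem ev_TD_re (x : ℕ → ℝ) (s : ℤ) (a b : ℕ) :
    evT (TD false s a b) x = s * 2 ^ 56 * DRe x a b := by
  unfold TD DRe
  rw [evT_flatMap, Finset.mul_sum]
  apply Finset.sum_congr rfl
  intro k hk
  have hk' : k ≤ 51 := by have := Finset.mem_range.mp hk; omega
  unfold tD
  split_ifs with h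
  · simp only [cond_false, evT, List.map_cons, List.map_nil, List.sum_cons, List.sum_nil, ga, gb,
      if_pos h.1, if_pos h.2]
    push_cast
    rw [coef_cast _ _ _ hk']
    field_simp
    ring
  · simp only [evT, List.map_nil, List.sum_nil, ga, gb]
    rcases not_and_or.mp h with h | h
    · rw [if_neg h, if_neg h]; ring
    · rw [if_neg h, if_neg h]; ring

theorem ev_TD_im (x : ℕ → ℝ) (s : ℤ) (a b : ℕ) :
    evT (TD true s a b) x = s * 2 ^ 56 * DIm x a b := by
  unfold TD DIm
  rw [evT_flatMap, Finset.mul_sum]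
  apply Finset.sum_congr rfl
  intro k hk
  have hk' : k ≤ 51 := by have := Finset.mem_range.mp hk; omega
  unfold tD
  split_ifs with h
  · simp only [cond_true, evT, List.map_cons, List.map_nil, List.sum_cons, List.sum_nil, ga, gb,
      if_pos h.1, if_pos h.2]
    push_cast
    rw [coef_cast _ _ _ hk']
    field_simp
    ring
  · simp only [evT, List.map_nil, List.sum_nil, ga, gb]
    rcases not_and_or.mp h with h | h
    · rw [if_neg h, if_neg h]; ring
    · rw [if_neg h, if_neg h]; ring

theorem ev_TO_re (x : ℕ → ℝ) (a b : ℕ) :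
    evT (TO false a b) x = 2 ^ 56 * ORe x a b := by
  unfold TO ORe
  rw [evT_flatMap, Finset.mul_sum]
  apply Finset.sum_congr rfl
  intro k hk
  have hk' : k ≤ 51 := by have := Finset.mem_range.mp hk; omega
  unfold tO
  split_ifs with h
  · simp only [cond_false, evT, List.map_cons, List.map_nil, List.sum_cons, List.sum_nil, ga, gb,
      if_pos h.1, if_pos h.2]
    push_cast
    rw [coef_cast _ _ _ hk', sg_cast]
    field_simp
    ring
  · simp only [evT, List.map_nil, List.sum_nil, ga, gb]
    rcases not_and_or.mp h with h | h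
    · rw [if_neg h, if_neg h]; ring
    · rw [if_neg h, if_neg h]; ring

theorem ev_TO_im (x : ℕ → ℝ) (a b : ℕ) :
    evT (TO true a b) x = 2 ^ 56 * OIm x a b := by
  unfold TO OIm
  rw [evT_flatMap, Finset.mul_sum]
  apply Finset.sum_congr rfl
  intro k hk
  have hk' : k ≤ 51 := by have := Finset.mem_range.mp hk; omega
  unfold tO
  split_ifs with h
  · simp only [cond_true, evT, List.map_cons, List.map_nil, List.sum_cons, List.sum_nil, ga, gb,
      if_pos h.1, if_pos h.2]
    push_cast
    rw [coef_cast _ _ _ hk', sg_cast]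
    field_simp
    ring
  · simp only [evT, List.map_nil, List.sum_nil, ga, gb]
    rcases not_and_or.mp h with h | h
    · rw [if_neg h, if_neg h]; ring
    · rw [if_neg h, if_neg h]; ring

end Pool.Agent.R998.PI
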