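import Mathlib

/-!
# Pauli strings on permutation-invariant states

Matrix elements of tensor products of one-qubit operators, all but `s` of which are the identity,
between symmetric states `x ↦ g (number of ones of x)`.
-/

namespace Pool.Agent.R998.KL

open Finset
open scoped ComplexConjugate

/-- number of ones of a bit string -/
def wt {ι : Type*} [Fintype ι] (x : ι → Fin 2) : ℕ := ∑ i, (x i : ℕ)

theorem sum_wt {κ : Type*} [Fintype κ] [DecidableEq κ] (f : ℕ → ℂ) :
    ∑ z : κ → Fin 2, f (wt z) =
      ∑ k ∈ range (Fintype.card κ + 1), (Nat.choose (Fintype.card κ) k : ℂ) * f k := by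
  have h := Finset.sum_powerset_apply_card (x := (Finset.univ : Finset κ)) f
  rw [Finset.card_univ] at h
  simp only [nsmul_eq_mul] at h
  rw [← h]
  refine Finset.sum_nbij' (fun z => Finset.univ.filter (fun i => z i = 1))
    (fun s i => if i ∈ s then 1 else 0) ?_ ?_ ?_ ?_ ?_
  · intro z _; simp
  · intro s _; simp
  · intro z _
    funext i
    simp only [Finset.mem_filter, Finset.mem_univ, true_and]
    have := (z i).2
    split_ifs with h
    · exact h.symm
    · apply Fin.ext
      have h2 : (z i : ℕ) ≠ 1 := fun h3 => h (Fin.ext h3)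
      simp only [Fin.val_zero]; omega
  · intro s _
    ext i
    simp
  · intro z _
    congr 1
    unfold wt
    rw [Finset.card_filter]
    apply Finset.sum_congr rfl
    intro i _
    have := (z i).2
    split_ifs with h
    · rw [h]; rfl
    · have h2 : (z i : ℕ) ≠ 1 := fun h3 => h (Fin.ext h3)
      omega

/-- The reduced matrix elements. -/
noncomputable def Rab (m : ℕ) (g g' : ℕ → ℂ) (a b : ℕ) : ℂ :=
  ∑ k ∈ range (m + 1), (Nat.choose m k : ℂ) * (conj (g (a + k)) * g' (b + k))

theorem reduce {ι : Type*} [Fintype ι] [DecidableEq ι] (p : ι → Prop) [DecidablePred p]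
    (M : ι → Matrix (Fin 2) (Fin 2) ℂ) (hM : ∀ i, ¬ p i → M i = 1) (g g' : ℕ → ℂ) :
    ∑ x : ι → Fin 2, ∑ y : ι → Fin 2, conj (g (wt x)) * (∏ i, M i (x i) (y i)) * g' (wt y) =
      ∑ u : {i // p i} → Fin 2, ∑ v : {i // p i} → Fin 2, (∏ i, M i.1 (u i) (v i)) *
        Rab (Fintype.card {i // ¬ p i}) g g' (wt u) (wt v) := by
  let e := Equiv.piEquivPiSubtypeProd p (fun _ : ι => Fin 2)
  have hwt : ∀ u z, wt (e.symm (u, z)) = wt u + wt z := by
    intro u z
    unfold wt
    rw [← Fintype.sum_subtype_add_sum_subtype p]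
    congr 1
    · apply Finset.sum_congr rfl; intro i _
      simp [e, Equiv.piEquivPiSubtypeProd, i.2]
    · apply Finset.sum_congr rfl; intro i _
      simp [e, Equiv.piEquivPiSubtypeProd, i.2]
  have hprod : ∀ u z v w, ∏ i, M i (e.symm (u, z) i) (e.symm (v, w) i)
      = (∏ i : {i // p i}, M i.1 (u i) (v i)) * (if z = w then 1 else 0) := by
    intro u z v w
    rw [← Fintype.prod_subtype_mul_prod_subtype p]
    congr 1
    · apply Finset.prod_congr rfl; intro i _
      simp [e, Equiv.piEquivPiSubtypeProd, i.2]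
    · have : ∀ i : {i // ¬ p i}, M i.1 (e.symm (u, z) i.1) (e.symm (v, w) i.1)
          = if z i = w i then 1 else 0 := by
        intro i
        rw [hM i.1 i.2, Matrix.one_apply]
        simp [e, Equiv.piEquivPiSubtypeProd, i.2]
      rw [Finset.prod_congr rfl (fun i _ => this i)]
      by_cases h : z = w
      · subst h; simp
      · rw [if_neg h]
        obtain ⟨i, hi⟩ := Function.ne_iff.mp h
        exact Finset.prod_eq_zero (Finset.mem_univ i) (if_neg hi)
  rw [← e.symm.sum_comp]
  simp_rw [← e.symm.sum_comp (fun y => _ * _ * g' (wt y))]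
  simp only [Fintype.sum_prod_type, hwt, hprod]
  apply Finset.sum_congr rfl
  intro u _
  rw [Finset.sum_comm]
  apply Finset.sum_congr rfl
  intro v _
  have h1 : ∀ z : {i // ¬ p i} → Fin 2, ∑ w : {i // ¬ p i} → Fin 2,
      conj (g (wt u + wt z)) * ((∏ i : {i // p i}, M i.1 (u i) (v i)) *
        (if z = w then 1 else 0)) * g' (wt v + wt w)
      = (∏ i : {i // p i}, M i.1 (u i) (v i)) * (conj (g (wt u + wt z)) * g' (wt v + wt z)) := by
    intro z
    rw [Finset.sum_eq_single z]
    · simp; ring
    · intro w _ hw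
      rw [if_neg (Ne.symm hw)]; ring
    · intro h; exact absurd (Finset.mem_univ _) h
  simp_rw [h1]
  rw [← Finset.mul_sum, sum_wt (fun k => conj (g (wt u + k)) * g' (wt v + k))]
  rfl

theorem wt_le {κ : Type*} [Fintype κ] (x : κ → Fin 2) : wt x ≤ Fintype.card κ := by
  unfold wt
  calc ∑ i, (x i : ℕ) ≤ ∑ _i : κ, 1 := by
        apply Finset.sum_le_sum; intro i _
        have := (x i).2; omega
    _ = Fintype.card κ := by simp

theorem wt_comp {κ : Type*} [Fintype κ] (σ : Equiv.Perm κ) (x : κ → Fin 2) :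
    wt (x ∘ σ) = wt x := by
  unfold wt
  exact Equiv.sum_comp σ (fun i => ((x i : Fin 2) : ℕ))

end Pool.Agent.R998.KL
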